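import Pool.Agent.TH530.Gr.Defs

/-!
Adding a handle: the connected sum with the seven vertex torus.
-/

namespace Pool.Agent.TH530.Gr

open Relation

/-- faces of the seven vertex torus -/
def kf (a b c : Fin 7) : Prop := a ≠ b ∧ c = a + 3 * (b - a)

instance instDecKf (a b c : Fin 7) : Decidable (kf a b c) := by unfold kf; infer_instance

/-- the three arcs of the face `0 1 3` -/
def R7 (i j : Fin 7) : Prop := (i = 0 ∧ j = 1) ∨ (i = 1 ∧ j = 3) ∨ (i = 3 ∧ j = 0)

instance (a b : Fin 7) : Decidable (R7 a b) := by unfold R7; infer_instance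

theorem kf_rotate : ∀ a b c : Fin 7, kf a b c → kf b c a := by decide
theorem kf_R7 : ∀ a b c : Fin 7, kf a b c → R7 a b → R7 b c := by decide
theorem kf_ex : ∀ a b : Fin 7, a ≠ b → kf a b (a + 3 * (b - a)) := fun a b h => ⟨h, rfl⟩

/-- the three arcs of the face `p q r` -/
def RP {V : Type} (p q r a b : V) : Prop := (a = p ∧ b = q) ∨ (a = q ∧ b = r) ∨ (a = r ∧ b = p)

variable {V : Type}

/-- the identification -/
def mm (p q r : V) : Fin 7 → V ⊕ Fin 4 :=
  ![Sum.inl q, Sum.inl p, Sum.inr 0, Sum.inl r, Sum.inr 1, Sum.inr 2, Sum.inr 3]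

theorem mm_inj {p q r : V} (h1 : p ≠ q) (h2 : q ≠ r) (h3 : r ≠ p) :
    Function.Injective (mm p q r) := by
  intro i j h
  fin_cases i <;> fin_cases j <;> simp_all [mm]

/-- an old vertex in the image -/
theorem mm_inl {p q r a : V} {i : Fin 7} (h : mm p q r i = Sum.inl a) :
    (i = 0 ∧ a = q) ∨ (i = 1 ∧ a = p) ∨ (i = 3 ∧ a = r) := by
  fin_cases i <;> simp_all [mm]

/-- the faces of the sum -/
inductive SumFace (T : SimpTri V) (p q r : V) : V ⊕ Fin 4 → V ⊕ Fin 4 → V ⊕ Fin 4 → Prop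
  | old (a b c : V) (h : T.face a b c) (hn : ¬ RP p q r a b) :
      SumFace T p q r (Sum.inl a) (Sum.inl b) (Sum.inl c)
  | new (i j k : Fin 7) (h : kf i j k) (hn : ¬ R7 i j) :
      SumFace T p q r (mm p q r i) (mm p q r j) (mm p q r k)

theorem RP_next {T : SimpTri V} {p q r a b c : V} (hF : T.face p q r) (h : T.face a b c)
    (hR : RP p q r a b) : RP p q r b c := by
  rcases hR with ⟨rfl, rfl⟩ | ⟨rfl, rfl⟩ | ⟨rfl, rfl⟩
  · right; left; exact ⟨rfl, T.unique h hF⟩
  · right; right; exact ⟨rfl, T.unique h (T.rotate hF)⟩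
  · left; exact ⟨rfl, T.unique h (T.rotate (T.rotate hF))⟩

theorem RP_iff {T : SimpTri V} {p q r a b c : V} (hF : T.face p q r) (h : T.face a b c) :
    RP p q r a b ↔ RP p q r b c := by
  constructor
  · exact RP_next hF h
  · intro h1
    exact RP_next hF (T.rotate (T.rotate h)) (RP_next hF (T.rotate h) h1)

/-- an arc between old vertices that is used by the new part is an arc of the face `p q r` -/
theorem mm_RP {p q r a b : V} {i j : Fin 7} (hij : i ≠ j) (hi : mm p q r i = Sum.inl a)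
    (hj : mm p q r j = Sum.inl b) (hn : ¬ R7 i j) : RP p q r a b := by
  rcases mm_inl hi with ⟨rfl, rfl⟩ | ⟨rfl, rfl⟩ | ⟨rfl, rfl⟩ <;>
  rcases mm_inl hj with ⟨rfl, rfl⟩ | ⟨rfl, rfl⟩ | ⟨rfl, rfl⟩ <;>
  simp_all [RP, R7]

/-- the arcs of the face `p q r` are used by the new part -/
theorem RP_mm {p q r a b : V} (h : RP p q r a b) :
    ∃ i j : Fin 7, mm p q r i = Sum.inl a ∧ mm p q r j = Sum.inl b ∧ i ≠ j ∧ ¬ R7 i j := by
  rcases h with ⟨rfl, rfl⟩ | ⟨rfl, rfl⟩ | ⟨rfl, rfl⟩
  · exact ⟨1, 0, rfl, rfl, by decide, by decide⟩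
  · exact ⟨0, 3, rfl, rfl, by decide, by decide⟩
  · exact ⟨3, 1, rfl, rfl, by decide, by decide⟩

section

variable {T : SimpTri V} {p q r : V}

theorem sf_rotate (hF : T.face p q r) {x y z : V ⊕ Fin 4} (h : SumFace T p q r x y z) :
    SumFace T p q r y z x := by
  cases h with
  | old a b c h hn => exact .old b c a (T.rotate h) (fun h1 => hn ((RP_iff hF h).mpr h1))
  | new i j k h hn =>
    exact .new j k i (kf_rotate _ _ _ h) (fun h1 => hn (by
      have e1 := kf_R7 _ _ _ (kf_rotate _ _ _ h) h1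
      exact kf_R7 _ _ _ (kf_rotate _ _ _ (kf_rotate _ _ _ h)) e1))

theorem sf_ne (h1 : p ≠ q) (h2 : q ≠ r) (h3 : r ≠ p) {x y z : V ⊕ Fin 4}
    (h : SumFace T p q r x y z) : x ≠ y := by
  cases h with
  | old a b c h hn => intro e; exact T.ne h (Sum.inl_injective e)
  | new i j k h hn => intro e; exact h.1 (mm_inj h1 h2 h3 e)

theorem sf_unique (h1 : p ≠ q) (h2 : q ≠ r) (h3 : r ≠ p) {x y z w : V ⊕ Fin 4}
    (h : SumFace T p q r x y z) (h' : SumFace T p q r x y w) : z = w := by
  have hinj := mm_inj h1 h2 h3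
  generalize hx : x = x' at h'
  generalize hy : y = y' at h'
  cases h with
  | old a b c h hn =>
    cases h' with
    | old a' b' c' h' hn' =>
      obtain rfl := Sum.inl_injective hx
      obtain rfl := Sum.inl_injective hy
      rw [T.unique h h']
    | new i j k h' hn' => exact absurd (mm_RP h'.1 hx.symm hy.symm hn') hn
  | new i j k h hn =>
    cases h' with
    | old a' b' c' h' hn' => exact absurd (mm_RP h.1 hx hy hn) hn'
    | new i' j' k' h' hn' =>
      obtain rfl := hinj hx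
      obtain rfl := hinj hy
      rw [h.2, h'.2]

theorem sf_arc {a b c : V}
    (h : T.face a b c) : ∃ w, SumFace T p q r (Sum.inl a) (Sum.inl b) w := by
  by_cases hR : RP p q r a b
  · obtain ⟨i, j, hi, hj, hij, hn⟩ := RP_mm hR
    exact ⟨_, by rw [← hi, ← hj]; exact .new i j _ (kf_ex i j hij) hn⟩
  · exact ⟨_, .old a b c h hR⟩

theorem sf_closed (hF : T.face p q r) (h1 : p ≠ q) (h2 : q ≠ r) (h3 : r ≠ p)
    {x y z : V ⊕ Fin 4} (h : SumFace T p q r x y z) : ∃ w, SumFace T p q r y x w := by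
  cases h with
  | old a b c h hn =>
    obtain ⟨d, hd⟩ := T.closed h
    exact sf_arc hd
  | new i j k h hn =>
    by_cases hR : R7 j i
    · rcases hR with ⟨rfl, rfl⟩ | ⟨rfl, rfl⟩ | ⟨rfl, rfl⟩
      · obtain ⟨d, hd⟩ := T.closed hF
        refine ⟨_, .old q p d hd ?_⟩
        simp only [RP]; tauto
      · obtain ⟨d, hd⟩ := T.closed (T.rotate (T.rotate hF))
        refine ⟨_, .old p r d hd ?_⟩
        simp only [RP]; tauto
      · obtain ⟨d, hd⟩ := T.closed (T.rotate hF)
        refine ⟨_, .old r q d hd ?_⟩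
        simp only [RP]; tauto
    · exact ⟨_, .new j i _ (kf_ex j i h.1.symm) hR⟩


/-- the two halves of the link of `p` inside the new part -/
theorem path1 (j : Fin 7) (hj : j ≠ 1) :
    ReflTransGen (SumFace T p q r (mm p q r 1)) (mm p q r 0) (mm p q r j) ∧
    ReflTransGen (SumFace T p q r (mm p q r 1)) (mm p q r j) (mm p q r 3) := by
  have s1 : SumFace T p q r (mm p q r 1) (mm p q r 0) (mm p q r 5) := .new 1 0 5 (by decide) (by decide)
  have s2 : SumFace T p q r (mm p q r 1) (mm p q r 5) (mm p q r 6) := .new 1 5 6 (by decide) (by decide)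
  have s3 : SumFace T p q r (mm p q r 1) (mm p q r 6) (mm p q r 2) := .new 1 6 2 (by decide) (by decide)
  have s4 : SumFace T p q r (mm p q r 1) (mm p q r 2) (mm p q r 4) := .new 1 2 4 (by decide) (by decide)
  have s5 : SumFace T p q r (mm p q r 1) (mm p q r 4) (mm p q r 3) := .new 1 4 3 (by decide) (by decide)
  have a0 := ReflTransGen.refl (r := SumFace T p q r (mm p q r 1)) (a := mm p q r 0)
  have a1 := a0.tail s1
  have a2 := a1.tail s2
  have a3 := a2.tail s3
  have a4 := a3.tail s4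
  have a5 := a4.tail s5
  have b5 := ReflTransGen.refl (r := SumFace T p q r (mm p q r 1)) (a := mm p q r 3)
  have b4 := ReflTransGen.head s5 b5
  have b3 := ReflTransGen.head s4 b4
  have b2 := ReflTransGen.head s3 b3
  have b1 := ReflTransGen.head s2 b2
  have b0 := ReflTransGen.head s1 b1
  fin_cases j
  · exact ⟨a0, b0⟩
  · exact absurd rfl hj
  · exact ⟨a3, b3⟩
  · exact ⟨a5, b5⟩
  · exact ⟨a4, b4⟩
  · exact ⟨a1, b1⟩
  · exact ⟨a2, b2⟩

theorem path0 (j : Fin 7) (hj : j ≠ 0) :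
    ReflTransGen (SumFace T p q r (mm p q r 0)) (mm p q r 3) (mm p q r j) ∧
    ReflTransGen (SumFace T p q r (mm p q r 0)) (mm p q r j) (mm p q r 1) := by
  have s1 : SumFace T p q r (mm p q r 0) (mm p q r 3) (mm p q r 2) := .new 0 3 2 (by decide) (by decide)
  have s2 : SumFace T p q r (mm p q r 0) (mm p q r 2) (mm p q r 6) := .new 0 2 6 (by decide) (by decide)
  have s3 : SumFace T p q r (mm p q r 0) (mm p q r 6) (mm p q r 4) := .new 0 6 4 (by decide) (by decide)
  have s4 : SumFace T p q r (mm p q r 0) (mm p q r 4) (mm p q r 5) := .new 0 4 5 (by decide) (by decide)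
  have s5 : SumFace T p q r (mm p q r 0) (mm p q r 5) (mm p q r 1) := .new 0 5 1 (by decide) (by decide)
  have a0 := ReflTransGen.refl (r := SumFace T p q r (mm p q r 0)) (a := mm p q r 3)
  have a1 := a0.tail s1
  have a2 := a1.tail s2
  have a3 := a2.tail s3
  have a4 := a3.tail s4
  have a5 := a4.tail s5
  have b5 := ReflTransGen.refl (r := SumFace T p q r (mm p q r 0)) (a := mm p q r 1)
  have b4 := ReflTransGen.head s5 b5
  have b3 := ReflTransGen.head s4 b4
  have b2 := ReflTransGen.head s3 b3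
  have b1 := ReflTransGen.head s2 b2
  have b0 := ReflTransGen.head s1 b1
  fin_cases j
  · exact absurd rfl hj
  · exact ⟨a5, b5⟩
  · exact ⟨a1, b1⟩
  · exact ⟨a0, b0⟩
  · exact ⟨a3, b3⟩
  · exact ⟨a4, b4⟩
  · exact ⟨a2, b2⟩

theorem path3 (j : Fin 7) (hj : j ≠ 3) :
    ReflTransGen (SumFace T p q r (mm p q r 3)) (mm p q r 1) (mm p q r j) ∧
    ReflTransGen (SumFace T p q r (mm p q r 3)) (mm p q r j) (mm p q r 0) := by
  have s1 : SumFace T p q r (mm p q r 3) (mm p q r 1) (mm p q r 4) := .new 3 1 4 (by decide) (by decide)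
  have s2 : SumFace T p q r (mm p q r 3) (mm p q r 4) (mm p q r 6) := .new 3 4 6 (by decide) (by decide)
  have s3 : SumFace T p q r (mm p q r 3) (mm p q r 6) (mm p q r 5) := .new 3 6 5 (by decide) (by decide)
  have s4 : SumFace T p q r (mm p q r 3) (mm p q r 5) (mm p q r 2) := .new 3 5 2 (by decide) (by decide)
  have s5 : SumFace T p q r (mm p q r 3) (mm p q r 2) (mm p q r 0) := .new 3 2 0 (by decide) (by decide)
  have a0 := ReflTransGen.refl (r := SumFace T p q r (mm p q r 3)) (a := mm p q r 1)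
  have a1 := a0.tail s1
  have a2 := a1.tail s2
  have a3 := a2.tail s3
  have a4 := a3.tail s4
  have a5 := a4.tail s5
  have b5 := ReflTransGen.refl (r := SumFace T p q r (mm p q r 3)) (a := mm p q r 0)
  have b4 := ReflTransGen.head s5 b5
  have b3 := ReflTransGen.head s4 b4
  have b2 := ReflTransGen.head s3 b3
  have b1 := ReflTransGen.head s2 b2
  have b0 := ReflTransGen.head s1 b1
  fin_cases j
  · exact ⟨a5, b5⟩
  · exact ⟨a0, b0⟩
  · exact ⟨a4, b4⟩
  · exact absurd rfl hj
  · exact ⟨a1, b1⟩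
  · exact ⟨a3, b3⟩
  · exact ⟨a2, b2⟩

/-- a step of the link of an old vertex lifts to a path -/
theorem lift_step (hF : T.face p q r) {v a b : V} (h : T.face v a b) :
    ReflTransGen (SumFace T p q r (Sum.inl v)) (Sum.inl a) (Sum.inl b) := by
  by_cases hR : RP p q r v a
  · rcases hR with ⟨rfl, rfl⟩ | ⟨rfl, rfl⟩ | ⟨rfl, rfl⟩
    · rw [T.unique h hF]
      exact (path1 (T := T) (p := v) (q := a) (r := r) 3 (by decide)).1
    · rw [T.unique h (T.rotate hF)]
      exact (path0 (T := T) (p := p) (q := v) (r := a) 1 (by decide)).1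
    · rw [T.unique h (T.rotate (T.rotate hF))]
      exact (path3 (T := T) (p := a) (q := q) (r := v) 0 (by decide)).1
  · exact ReflTransGen.single (.old v a b h hR)

theorem lift_link (hF : T.face p q r) {v a c : V} (h : ReflTransGen (T.face v) a c) :
    ReflTransGen (SumFace T p q r (Sum.inl v)) (Sum.inl a) (Sum.inl c) := by
  induction h with
  | refl => exact ReflTransGen.refl
  | tail _ h2 ih => exact ih.trans (lift_step hF h2)

/-- every neighbour of an old vertex lies between two old neighbours in its link -/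
theorem between (hF : T.face p q r) {v : V} {x y : V ⊕ Fin 4}
    (h : SumFace T p q r (Sum.inl v) x y) :
    ∃ a a' b b' : V, T.face v a a' ∧ T.face v b b' ∧
      ReflTransGen (SumFace T p q r (Sum.inl v)) (Sum.inl a) x ∧
      ReflTransGen (SumFace T p q r (Sum.inl v)) x (Sum.inl b) := by
  generalize hv : (Sum.inl v : V ⊕ Fin 4) = v' at h
  cases h with
  | old v0 a b h hn =>
    obtain rfl := Sum.inl_injective hv
    exact ⟨a, b, a, b, h, h, ReflTransGen.refl, ReflTransGen.refl⟩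
  | new i j k h hn =>
    obtain ⟨d, hd⟩ := T.closed hF
    obtain ⟨e, he⟩ := T.closed (T.rotate hF)
    obtain ⟨f, hf⟩ := T.closed (T.rotate (T.rotate hF))
    rcases mm_inl hv.symm with ⟨rfl, rfl⟩ | ⟨rfl, rfl⟩ | ⟨rfl, rfl⟩
    · have := path0 (T := T) (p := p) (q := v) (r := r) j h.1.symm
      exact ⟨r, _, p, _, T.rotate hF, hd, this.1, this.2⟩
    · have := path1 (T := T) (p := v) (q := q) (r := r) j h.1.symm
      exact ⟨q, _, r, _, hF, hf, this.1, this.2⟩
    · have := path3 (T := T) (p := p) (q := q) (r := v) j h.1.symm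
      exact ⟨p, _, q, _, T.rotate (T.rotate hF), he, this.1, this.2⟩

theorem k7_iter : ∀ i j j' : Fin 7, j ≠ i → j' ≠ i → ∃ n : Fin 6, i + 3 ^ (n : ℕ) * (j - i) = j' := by
  decide

theorem k7_ne : ∀ i j : Fin 7, ∀ n : Fin 6, j ≠ i → i ≠ i + 3 ^ (n : ℕ) * (j - i) := by
  decide

theorem link_new {i : Fin 7} (hi : ∀ j, ¬ R7 i j) (j : Fin 7) (hj : j ≠ i) (n : ℕ) (hn : n < 6) :
    ReflTransGen (SumFace T p q r (mm p q r i)) (mm p q r j)
      (mm p q r (i + 3 ^ n * (j - i))) := by
  induction n with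
  | zero =>
    have : i + 3 ^ 0 * (j - i) = j := by
      rw [pow_zero, one_mul]; exact add_sub_cancel i j
    rw [this]
  | succ n ih =>
    refine (ih (by omega)).tail ?_
    have h1 : i ≠ i + 3 ^ n * (j - i) := k7_ne i j ⟨n, by omega⟩ hj
    have h2 : i + 3 ^ (n + 1) * (j - i) = i + 3 * ((i + 3 ^ n * (j - i)) - i) := by
      rw [add_sub_cancel_left, pow_succ', mul_assoc]
    rw [h2]
    exact .new i _ _ (kf_ex _ _ h1) (hi _)

theorem new_of {i : Fin 7} {t : Fin 4} {a b : V ⊕ Fin 4} (hi : mm p q r i = Sum.inr t)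
    (h : SumFace T p q r (mm p q r i) a b) (hinj : Function.Injective (mm p q r)) :
    ∃ j, j ≠ i ∧ a = mm p q r j := by
  generalize hv : mm p q r i = v' at h
  cases h with
  | old v0 a b h hn => rw [hi] at hv; cases hv
  | new i1 j k h hn =>
    obtain rfl := hinj hv
    exact ⟨j, h.1.symm, rfl⟩

theorem sf_link (hF : T.face p q r) {v a b c d : V ⊕ Fin 4} (h1 : SumFace T p q r v a b)
    (h2 : SumFace T p q r v c d) (hinj : Function.Injective (mm p q r)) :
    ReflTransGen (SumFace T p q r v) a c := by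
  rcases v with v | t
  · obtain ⟨_, _, b1, b1', _, hb, _, hab⟩ := between hF h1
    obtain ⟨a2, a2', _, _, ha, _, hac, _⟩ := between hF h2
    exact hab.trans ((lift_link hF (T.link hb ha)).trans hac)
  · obtain ⟨i, hi, hR⟩ : ∃ i : Fin 7, mm p q r i = Sum.inr t ∧ ∀ j, ¬ R7 i j := by
      fin_cases t
      · exact ⟨2, rfl, by decide⟩
      · exact ⟨4, rfl, by decide⟩
      · exact ⟨5, rfl, by decide⟩
      · exact ⟨6, rfl, by decide⟩
    rw [← hi] at h1 h2 ⊢
    obtain ⟨j, hj, rfl⟩ := new_of hi h1 hinj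
    obtain ⟨j2, hj2, rfl⟩ := new_of hi h2 hinj
    obtain ⟨n, hn1⟩ := k7_iter i j j2 hj hj2
    rw [← hn1]
    exact link_new hR j hj n n.2

theorem lift_conn {u v : V} (h : ReflTransGen (fun x y => ∃ z, T.face x y z) u v) :
    ReflTransGen (fun x y => ∃ z, SumFace T p q r x y z) (Sum.inl u) (Sum.inl v) := by
  induction h with
  | refl => exact ReflTransGen.refl
  | tail _ h2 ih =>
    obtain ⟨z, hz⟩ := h2
    exact ih.tail (sf_arc hz)

theorem sf_conn_p (x : V ⊕ Fin 4) :
    ReflTransGen (fun x y => ∃ z, SumFace T p q r x y z) x (Sum.inl p) ∧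
    ReflTransGen (fun x y => ∃ z, SumFace T p q r x y z) (Sum.inl p) x := by
  rcases x with v | t
  · exact ⟨lift_conn (T.connected v p), lift_conn (T.connected p v)⟩
  · obtain ⟨i, hi, h1, h2, h3⟩ : ∃ i : Fin 7, mm p q r i = Sum.inr t ∧ i ≠ 1 ∧ ¬ R7 i 1 ∧
        ¬ R7 1 i := by
      fin_cases t
      · exact ⟨2, rfl, by decide⟩
      · exact ⟨4, rfl, by decide⟩
      · exact ⟨5, rfl, by decide⟩
      · exact ⟨6, rfl, by decide⟩
    rw [← hi]
    exact ⟨ReflTransGen.single ⟨_, .new i 1 _ (kf_ex i 1 h1) h2⟩,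
      ReflTransGen.single ⟨_, .new 1 i _ (kf_ex 1 i h1.symm) h3⟩⟩

/-- the connected sum of a triangulation with the seven vertex torus -/
def addHandle (T : SimpTri V) (p q r : V) (hF : T.face p q r) : SimpTri (V ⊕ Fin 4) where
  face := SumFace T p q r
  rotate := sf_rotate hF
  ne := sf_ne (T.ne hF) (T.ne (T.rotate hF)) (T.ne (T.rotate (T.rotate hF)))
  unique := sf_unique (T.ne hF) (T.ne (T.rotate hF)) (T.ne (T.rotate (T.rotate hF)))
  closed := sf_closed hF (T.ne hF) (T.ne (T.rotate hF)) (T.ne (T.rotate (T.rotate hF)))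
  link := fun h1 h2 => sf_link hF h1 h2
    (mm_inj (T.ne hF) (T.ne (T.rotate hF)) (T.ne (T.rotate (T.rotate hF))))
  connected := fun u v => (sf_conn_p u).1.trans (sf_conn_p v).2
  nonempty := ⟨_, _, _, .new 2 0 _ (kf_ex 2 0 (by decide)) (by decide)⟩

end

theorem arcs_addHandle (T : SimpTri V) (p q r : V) (hF : T.face p q r) :
    (addHandle T p q r hF).arcs =
      (Prod.map Sum.inl Sum.inl '' (T.arcs \ {(p, q), (q, r), (r, p)})) ∪
      (Prod.map (mm p q r) (mm p q r) '' {e : Fin 7 × Fin 7 | e.1 ≠ e.2 ∧ ¬ R7 e.1 e.2}) := by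
  ext ⟨x, y⟩
  constructor
  · rintro ⟨z, hz⟩
    change SumFace T p q r x y z at hz
    cases hz with
    | old a b c h hn =>
      left
      refine ⟨(a, b), ⟨⟨c, h⟩, ?_⟩, rfl⟩
      intro h1
      apply hn
      simpa [RP, Set.mem_insert_iff, Prod.mk.injEq] using h1
    | new i j k h hn =>
      right
      exact ⟨(i, j), ⟨h.1, hn⟩, rfl⟩
  · rintro (⟨⟨a, b⟩, ⟨⟨c, h⟩, hn⟩, he⟩ | ⟨⟨i, j⟩, ⟨h, hn⟩, he⟩)
    · simp only [Prod.map_apply, Prod.mk.injEq] at he
      obtain ⟨rfl, rfl⟩ := he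
      refine ⟨_, SumFace.old a b c h ?_⟩
      intro h1
      apply hn
      simpa [RP, Set.mem_insert_iff, Prod.mk.injEq] using h1
    · simp only [Prod.map_apply, Prod.mk.injEq] at he
      obtain ⟨rfl, rfl⟩ := he
      exact ⟨_, SumFace.new i j _ (kf_ex i j h) hn⟩

theorem k7_card : ({e : Fin 7 × Fin 7 | e.1 ≠ e.2 ∧ ¬ R7 e.1 e.2} : Set (Fin 7 × Fin 7)).ncard
    = 39 := by
  rw [Set.ncard_eq_toFinset_card']
  decide

theorem arcs_ncard_addHandle [Finite V] (T : SimpTri V) (p q r : V) (hF : T.face p q r) :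
    (addHandle T p q r hF).arcs.ncard = T.arcs.ncard + 36 := by
  have h1 := T.ne hF
  have h2 := T.ne (T.rotate hF)
  have h3 := T.ne (T.rotate (T.rotate hF))
  have hinj := mm_inj h1 h2 h3
  rw [arcs_addHandle, Set.ncard_union_eq, Set.ncard_image_of_injective _
    (Sum.inl_injective.prodMap Sum.inl_injective),
    Set.ncard_image_of_injective _ (hinj.prodMap hinj), k7_card]
  · have hs : ({(p, q), (q, r), (r, p)} : Set (V × V)) ⊆ T.arcs := by
      rintro e (rfl | rfl | rfl)
      · exact ⟨_, hF⟩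
      · exact ⟨_, T.rotate hF⟩
      · exact ⟨_, T.rotate (T.rotate hF)⟩
    have hc : ({(p, q), (q, r), (r, p)} : Set (V × V)).ncard = 3 := by
      rw [Set.ncard_eq_three]
      refine ⟨_, _, _, ?_, ?_, ?_, rfl⟩ <;> simp [Prod.mk.injEq] <;> tauto
    have hd := Set.ncard_sdiff_add_ncard_of_subset hs
    omega
  · rw [Set.disjoint_left]
    rintro ⟨x, y⟩ ⟨⟨a, b⟩, ⟨⟨c, h⟩, hn⟩, he⟩ ⟨⟨i, j⟩, ⟨hij, hR⟩, he'⟩
    simp only [Prod.map_apply, Prod.mk.injEq] at he he'
    obtain ⟨rfl, rfl⟩ := he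
    apply hn
    have := mm_RP hij he'.1 he'.2 hR
    simpa [RP, Set.mem_insert_iff, Prod.mk.injEq] using this

theorem hasGenus_addHandle [Finite V] (T : SimpTri V) (p q r : V) (hF : T.face p q r) (g : ℕ)
    (h : T.HasGenus g) : (addHandle T p q r hF).HasGenus (g + 1) := by
  rw [SimpTri.hasGenus_iff] at h ⊢
  rw [arcs_ncard_addHandle, Nat.card_sum]
  have : Nat.card (Fin 4) = 4 := by simp
  rw [this]
  push_cast
  push_cast at h
  linarith

/-- three different colours on a face: every colour occurs once -/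
theorem three_distinct (x y z : Fin 3) (h1 : x ≠ y) (h2 : y ≠ z) (h3 : z ≠ x) (c : Fin 3) :
    (if x = c then 1 else 0) + (if y = c then 1 else 0) + (if z = c then (1 : ℕ) else 0) = 1 := by
  revert x y z c
  decide

/-- if every colour occurs an odd number of times on three edges they have different colours -/
theorem distinct_of_odd (x y z : Fin 3)
    (h : ∀ c : Fin 3, ((if x = c then 1 else 0) + (if y = c then 1 else 0) +
      (if z = c then (1 : ℕ) else 0)) % 2 = 1) : x ≠ y ∧ y ≠ z ∧ z ≠ x := by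
  revert x y z
  decide

/-- the parity lemma for the seven vertex torus without the face `0 1 3` -/
theorem k7_parity (col : Fin 7 → Fin 7 → Fin 3) (hs : ∀ a b, col a b = col b a)
    (h : ∀ a b c, kf a b c → ¬ R7 a b →
      col a b ≠ col b c ∧ col b c ≠ col c a ∧ col c a ≠ col a b) :
    col 0 1 ≠ col 1 3 ∧ col 1 3 ≠ col 3 0 ∧ col 3 0 ≠ col 0 1 := by
  apply distinct_of_odd
  intro c
  have key : ∀ i j k : Fin 7, kf i j k → ¬ R7 i j →
      (if col i j = c then 1 else 0) + (if col j k = c then 1 else 0) +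
      (if col k i = c then (1 : ℕ) else 0) = 1 := by
    intro i j k h1 h2
    obtain ⟨e1, e2, e3⟩ := h i j k h1 h2
    exact three_distinct _ _ _ e1 e2 e3 c
  have f1 := key 1 2 4 (by decide) (by decide)
  have f2 := key 2 3 5 (by decide) (by decide)
  have f3 := key 3 4 6 (by decide) (by decide)
  have f4 := key 4 5 0 (by decide) (by decide)
  have f5 := key 5 6 1 (by decide) (by decide)
  have f6 := key 6 0 2 (by decide) (by decide)
  have g0 := key 0 3 2 (by decide) (by decide)
  have g1 := key 1 4 3 (by decide) (by decide)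
  have g2 := key 2 5 4 (by decide) (by decide)
  have g3 := key 3 6 5 (by decide) (by decide)
  have g4 := key 4 0 6 (by decide) (by decide)
  have g5 := key 5 1 0 (by decide) (by decide)
  have g6 := key 6 2 1 (by decide) (by decide)
  have e : ∀ a b : Fin 7, (if col a b = c then (1 : ℕ) else 0) = if col b a = c then 1 else 0 := by
    intro a b
    rw [hs]
  have e01 := e 0 1
  have e02 := e 0 2
  have e03 := e 0 3
  have e04 := e 0 4
  have e05 := e 0 5
  have e06 := e 0 6
  have e12 := e 1 2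
  have e13 := e 1 3
  have e14 := e 1 4
  have e15 := e 1 5
  have e16 := e 1 6
  have e23 := e 2 3
  have e24 := e 2 4
  have e25 := e 2 5
  have e26 := e 2 6
  have e34 := e 3 4
  have e35 := e 3 5
  have e36 := e 3 6
  have e45 := e 4 5
  have e46 := e 4 6
  have e56 := e 5 6
  omega

theorem colourable_of_addHandle (T : SimpTri V) (p q r : V) (hF : T.face p q r)
    (h : (addHandle T p q r hF).DualThreeEdgeColourable) : T.DualThreeEdgeColourable := by
  obtain ⟨col, hs, hc⟩ := h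
  have h7 := k7_parity (fun i j => col (mm p q r i) (mm p q r j)) (fun a b => hs _ _)
    (fun a b c h1 h2 => hc _ _ _ (SumFace.new a b c h1 h2))
  have e0 : mm p q r 0 = Sum.inl q := rfl
  have e1 : mm p q r 1 = Sum.inl p := rfl
  have e3 : mm p q r 3 = Sum.inl r := rfl
  simp only [e0, e1, e3] at h7
  obtain ⟨h71, h72, h73⟩ := h7
  refine ⟨fun a b => col (Sum.inl a) (Sum.inl b), fun a b => hs _ _, ?_⟩
  intro a b c hf
  have hqp := hs (Sum.inl q) (Sum.inl p)
  have hpr := hs (Sum.inl p) (Sum.inl r)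
  have hrq := hs (Sum.inl r) (Sum.inl q)
  by_cases hR : RP p q r a b
  · rcases hR with ⟨rfl, rfl⟩ | ⟨rfl, rfl⟩ | ⟨rfl, rfl⟩
    · obtain rfl := T.unique hf hF
      simp only [hqp, hpr, hrq] at h71 h72 h73 ⊢
      exact ⟨h73.symm, h72.symm, h71.symm⟩
    · obtain rfl := T.unique hf (T.rotate hF)
      simp only [hqp, hpr, hrq] at h71 h72 h73 ⊢
      exact ⟨h72.symm, h71.symm, h73.symm⟩
    · obtain rfl := T.unique hf (T.rotate (T.rotate hF))
      simp only [hqp, hpr, hrq] at h71 h72 h73 ⊢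
      exact ⟨h71.symm, h73.symm, h72.symm⟩
  · exact hc _ _ _ (SumFace.old a b c hf hR)

end Pool.Agent.TH530.Gr
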