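import Pool.Agent.TH530.Gr.Defs
import Pool.Agent.TH651.RP5.Engine

/-!
Triangulations given by a table, and a check that the dual has no three-edge-colouring.
-/

namespace Pool.Agent.TH530.Gr

open Relation Pool.Agent.TH651.RP5

/-- a triangulation as a table, with a refutation of its colourings -/
structure Dat where
  n : ℕ
  N : ℕ
  nE : ℕ
  nF : ℕ
  EN : ℕ
  FN : ℕ
  SN : ℕ
  arcsN : ℕ
  db : Tr
  hs : List ℕ

namespace Dat

variable (D : Dat)

/-- the third vertex of the face on the left of the arc from `a` to `b`; `63` if there is none -/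
def nx (a b : ℕ) : ℕ := (D.N >>> (6 * (D.n * a + b))) % 64
/-- vertices and edges of a face -/
def fv (f k : ℕ) : ℕ := (D.FN >>> (8 * (6 * f + k))) % 256
/-- end points of an edge -/
def ev (e k : ℕ) : ℕ := (D.EN >>> (8 * (2 * e + k))) % 256
/-- a neighbour of `v` -/
def sv (v : ℕ) : ℕ := (D.SN >>> (8 * v)) % 256

def it (v : ℕ) : ℕ → ℕ → ℕ
  | 0, a => a
  | k + 1, a => it v k (D.nx v a)

structure Ok : Prop where
  surf : ∀ a < D.n, ∀ b < D.n, D.nx a b = 63 ∨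
    (a ≠ b ∧ D.nx a b < D.n ∧ D.nx b (D.nx a b) = a ∧ D.nx b a ≠ 63)
  start : ∀ v < D.n, D.sv v < D.n ∧ D.nx v (D.sv v) ≠ 63
  link1 : ∀ v < D.n, ∀ a < D.n, D.nx v a = 63 ∨ ∃ k < 20, D.it v k (D.sv v) = a
  link2 : ∀ v < D.n, ∀ a < D.n, D.nx v a = 63 ∨ ∃ k < 20, D.it v k a = D.sv v
  conn : ∀ v < D.n, v = 0 ∨ ∃ u < v, D.nx v u ≠ 63
  small : D.n < 63 ∧ 0 < D.n

variable {D}

/-- the face relation -/
def fc (D : Dat) (a b c : Fin D.n) : Prop := D.nx a b = c

instance instDecFc (a b c : Fin D.n) : Decidable (fc D a b c) := by unfold fc; infer_instance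

section

variable (h : D.Ok)
include h

theorem fc_rotate {a b c : Fin D.n} (hf : fc D a b c) : fc D b c a := by
  rcases h.surf a a.2 b b.2 with h1 | ⟨h1, h2, h3, h4⟩
  · have := c.2
    have := h.small.1
    unfold fc at hf
    omega
  · unfold fc at *
    rw [hf] at h3
    exact h3

theorem fc_ne {a b c : Fin D.n} (hf : fc D a b c) : a ≠ b := by
  rcases h.surf a a.2 b b.2 with h1 | ⟨h1, h2, h3, h4⟩
  · have := c.2
    have := h.small.1
    unfold fc at hf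
    omega
  · exact fun e => h1 (by rw [e])

theorem exists_fc {a b : Fin D.n} (hf : D.nx a b ≠ 63) : ∃ c, fc D a b c := by
  rcases h.surf a a.2 b b.2 with h1 | ⟨h1, h2, h3, h4⟩
  · exact absurd h1 hf
  · exact ⟨⟨_, h2⟩, rfl⟩

theorem nx_ne {a b c : Fin D.n} (hf : fc D a b c) : D.nx a b ≠ 63 := by
  have := c.2
  have := h.small.1
  unfold fc at hf
  omega

theorem fc_closed {a b c : Fin D.n} (hf : fc D a b c) : ∃ d, fc D b a d := by
  rcases h.surf a a.2 b b.2 with h1 | ⟨h1, h2, h3, h4⟩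
  · exact absurd h1 (nx_ne h hf)
  · exact exists_fc h h4

theorem fc_next {v a b : Fin D.n} (hf : fc D v a b) : D.nx v b ≠ 63 := by
  obtain ⟨d, hd⟩ := fc_closed h (fc_rotate h (fc_rotate h hf))
  exact nx_ne h hd

theorem it_path (v : Fin D.n) : ∀ (k : ℕ) (a : Fin D.n), D.nx v a ≠ 63 →
    ∃ hb : D.it v k a < D.n, ReflTransGen (fc D v) a ⟨D.it v k a, hb⟩ := by
  intro k
  induction k with
  | zero => intro a ha; exact ⟨a.2, ReflTransGen.refl⟩
  | succ k ih =>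
    intro a ha
    obtain ⟨b, hb⟩ := exists_fc h ha
    have hb' : D.nx v a = b := hb
    obtain ⟨h1, h2⟩ := ih b (fc_next h hb)
    have e : D.it v (k + 1) a = D.it v k b := by
      change D.it v k (D.nx v a) = _
      rw [hb']
    simp only [e]
    exact ⟨h1, ReflTransGen.head hb h2⟩

theorem fc_link {v a b c d : Fin D.n} (h1 : fc D v a b) (h2 : fc D v c d) :
    ReflTransGen (fc D v) a c := by
  obtain ⟨hs1, hs2⟩ := h.start v v.2
  have p1 : ReflTransGen (fc D v) a ⟨D.sv v, hs1⟩ := by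
    rcases h.link2 v v.2 a a.2 with h3 | ⟨k, -, hk⟩
    · exact absurd h3 (nx_ne h h1)
    · obtain ⟨hb, hp⟩ := it_path h v k a (nx_ne h h1)
      simp only [hk] at hp
      exact hp
  have p2 : ReflTransGen (fc D v) ⟨D.sv v, hs1⟩ c := by
    rcases h.link1 v v.2 c c.2 with h3 | ⟨k, -, hk⟩
    · exact absurd h3 (nx_ne h h2)
    · obtain ⟨hb, hp⟩ := it_path h v k ⟨D.sv v, hs1⟩ hs2
      simp only [hk] at hp
      exact hp
  exact p1.trans p2

theorem fc_conn0 : ∀ (k : ℕ) (hk : k < D.n),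
    ReflTransGen (fun x y => ∃ z, fc D x y z) ⟨k, hk⟩ ⟨0, h.small.2⟩ ∧
    ReflTransGen (fun x y => ∃ z, fc D x y z) ⟨0, h.small.2⟩ ⟨k, hk⟩ := by
  intro k
  induction k using Nat.strong_induction_on with
  | _ k ih =>
    intro hk
    rcases h.conn k hk with rfl | ⟨u, hu, hn⟩
    · exact ⟨ReflTransGen.refl, ReflTransGen.refl⟩
    · obtain ⟨i1, i2⟩ := ih u hu (by omega)
      have e1 : ∃ z, fc D ⟨k, hk⟩ ⟨u, by omega⟩ z := exists_fc h hn
      have e2 : ∃ z, fc D ⟨u, by omega⟩ ⟨k, hk⟩ z := by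
        obtain ⟨z, hz⟩ := e1
        exact fc_closed h hz
      exact ⟨ReflTransGen.head e1 i1, i2.tail e2⟩

end

/-- the triangulation given by a table -/
def tri (D : Dat) (h : D.Ok) : SimpTri (Fin D.n) where
  face := fc D
  rotate := fc_rotate h
  ne := fc_ne h
  unique := fun h1 h2 => Fin.ext (h1.symm.trans h2)
  closed := fc_closed h
  link := fc_link h
  connected := fun u v => (fc_conn0 h u u.2).1.trans (fc_conn0 h v v.2).2
  nonempty := by
    obtain ⟨hs1, hs2⟩ := h.start 0 h.small.2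
    obtain ⟨c, hc⟩ := exists_fc (a := ⟨0, h.small.2⟩) (b := ⟨D.sv 0, hs1⟩) h hs2
    exact ⟨_, _, c, hc⟩

theorem arcs_tri (h : D.Ok)
    (hc : ((Finset.univ : Finset (Fin D.n × Fin D.n)).filter
      (fun e => D.nx e.1 e.2 ≠ 63)).card = D.arcsN) :
    (D.tri h).arcs.ncard = D.arcsN := by
  have : (D.tri h).arcs = ((Finset.univ : Finset (Fin D.n × Fin D.n)).filter
      (fun e => D.nx e.1 e.2 ≠ 63) : Set (Fin D.n × Fin D.n)) := by
    ext e
    simp only [Finset.coe_filter, Finset.mem_univ, true_and, Set.mem_setOf_eq]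
    constructor
    · rintro ⟨c, hc⟩
      exact nx_ne h hc
    · intro he
      exact exists_fc h he
  rw [this, Set.ncard_coe_finset, hc]

structure OkCol (D : Dat) : Prop where
  pos : 0 < D.nF
  face : ∀ f < D.nF, D.fv f 0 < D.n ∧ D.fv f 1 < D.n ∧ D.fv f 2 < D.n ∧
    D.nx (D.fv f 0) (D.fv f 1) = D.fv f 2
  edge : ∀ f < D.nF, ∀ k < 3,
    (D.ev (D.fv f (3 + k)) 0 = D.fv f k ∧ D.ev (D.fv f (3 + k)) 1 = D.fv f ((k + 1) % 3)) ∨
    (D.ev (D.fv f (3 + k)) 1 = D.fv f k ∧ D.ev (D.fv f (3 + k)) 0 = D.fv f ((k + 1) % 3))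
  db1 : ∀ e < D.nE, ∀ c < 3, (D.db.get e).testBit (2 * (3 * e + c)) = true
  db2 : ∀ f < D.nF, ∀ k < 3, ∀ c < 3,
    (D.db.get (D.nE + 9 * f + 3 * k + c)).testBit (2 * (3 * D.fv f (3 + k) + c) + 1) = true ∧
    (D.db.get (D.nE + 9 * f + 3 * k + c)).testBit (2 * (3 * D.fv f (3 + (k + 1) % 3) + c) + 1) = true
  db3 : ∀ k < 3, (D.db.get (D.nE + 9 * D.nF + k)).testBit (2 * (3 * D.fv 0 (3 + k) + k)) = true
  run : chkL D.db D.hs (D.nE + 9 * D.nF + 3) = true
  len : 0 < D.hs.length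
  last : D.db.get (D.nE + 9 * D.nF + 3 + D.hs.length - 1) = 0

theorem perm_exists : ∀ x y z : Fin 3, x ≠ y → y ≠ z → z ≠ x →
    ∃ σ : Equiv.Perm (Fin 3), σ x = 0 ∧ σ y = 1 ∧ σ z = 2 := by decide

theorem not_colourable (h : D.Ok) (hc : D.OkCol) : ¬ (D.tri h).DualThreeEdgeColourable := by
  rintro ⟨col, hs, hcol⟩
  -- the colours of the face number zero
  have hface : ∀ f < D.nF, ∃ a b c : Fin D.n, (a : ℕ) = D.fv f 0 ∧ (b : ℕ) = D.fv f 1 ∧
      (c : ℕ) = D.fv f 2 ∧ fc D a b c := by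
    intro f hf
    obtain ⟨h1, h2, h3, h4⟩ := hc.face f hf
    exact ⟨⟨_, h1⟩, ⟨_, h2⟩, ⟨_, h3⟩, rfl, rfl, rfl, h4⟩
  obtain ⟨a0, b0, c0, ha0, hb0, hc0, hf0⟩ := hface 0 hc.pos
  obtain ⟨n1, n2, n3⟩ := hcol a0 b0 c0 hf0
  obtain ⟨σ, s1, s2, s3⟩ := perm_exists _ _ _ n1 n2 n3
  -- colours of numbered vertices
  let cc : ℕ → ℕ → ℕ := fun x y =>
    if hh : x < D.n ∧ y < D.n then (σ (col ⟨x, hh.1⟩ ⟨y, hh.2⟩) : ℕ) else 0
  have cc_symm : ∀ x y, cc x y = cc y x := by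
    intro x y
    by_cases hh : x < D.n ∧ y < D.n
    · simp only [cc, dif_pos hh, dif_pos hh.symm]
      rw [hs]
    · simp only [cc, dif_neg hh, dif_neg (fun h' => hh (And.symm h'))]
  have cc_lt : ∀ x y, cc x y < 3 := by
    intro x y
    simp only [cc]
    split
    · exact Fin.is_lt _
    · omega
  have cc_val : ∀ (a b : Fin D.n), cc a b = σ (col a b) := by
    intro a b
    simp only [cc, dif_pos (show (a : ℕ) < D.n ∧ (b : ℕ) < D.n from ⟨a.2, b.2⟩)]
  let ce : ℕ → ℕ := fun e => cc (D.ev e 0) (D.ev e 1)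
  have ce_face : ∀ f < D.nF, ∀ k < 3, ce (D.fv f (3 + k)) = cc (D.fv f k) (D.fv f ((k + 1) % 3)) := by
    intro f hf k hk
    rcases hc.edge f hf k hk with ⟨e1, e2⟩ | ⟨e1, e2⟩
    · simp only [ce, e1, e2]
    · simp only [ce, e1, e2]
      exact cc_symm _ _
  have ce_ne : ∀ f < D.nF, ∀ k < 3, ce (D.fv f (3 + k)) ≠ ce (D.fv f (3 + (k + 1) % 3)) := by
    intro f hf k hk
    obtain ⟨a, b, c, ha, hb, hcc, hfc⟩ := hface f hf
    obtain ⟨m1, m2, m3⟩ := hcol a b c hfc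
    have inj : ∀ u v w x : Fin D.n, col u v ≠ col w x → cc u v ≠ cc w x := by
      intro u v w x hne he
      rw [cc_val, cc_val] at he
      exact hne (σ.injective (Fin.ext he))
    have g0 := ce_face f hf 0 (by omega)
    have g1 := ce_face f hf 1 (by omega)
    have g2 := ce_face f hf 2 (by omega)
    rw [← ha, show D.fv f ((0 + 1) % 3) = b from hb.symm] at g0
    rw [← hb, show D.fv f ((1 + 1) % 3) = c from hcc.symm] at g1
    rw [← hcc, show D.fv f ((2 + 1) % 3) = a from ha.symm] at g2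
    rcases (show k = 0 ∨ k = 1 ∨ k = 2 by omega) with rfl | rfl | rfl
    · rw [g0, show 3 + (0 + 1) % 3 = 3 + 1 from rfl, g1]; exact inj _ _ _ _ m1
    · rw [g1, show 3 + (1 + 1) % 3 = 3 + 2 from rfl, g2]; exact inj _ _ _ _ m2
    · rw [g2, show 3 + (2 + 1) % 3 = 3 + 0 from rfl, g0]; exact inj _ _ _ _ m3
  let ν : ℕ → Bool := fun v => decide (ce (v / 3) = v % 3)
  have lpos : ∀ e c, c < 3 → ce e = c → litT ν (2 * (3 * e + c)) := by
    intro e c hc3 he
    unfold litT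
    have e1 : 2 * (3 * e + c) / 2 = 3 * e + c := by omega
    have e2 : 2 * (3 * e + c) % 2 = 0 := by omega
    have e3 : (3 * e + c) / 3 = e := by omega
    have e4 : (3 * e + c) % 3 = c := by omega
    rw [e1, e2]
    simp only [ν, e3, e4, he]
    rfl
  have lneg : ∀ e c, c < 3 → ce e ≠ c → litT ν (2 * (3 * e + c) + 1) := by
    intro e c hc3 he
    unfold litT
    have e1 : (2 * (3 * e + c) + 1) / 2 = 3 * e + c := by omega
    have e2 : (2 * (3 * e + c) + 1) % 2 = 1 := by omega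
    have e3 : (3 * e + c) / 3 = e := by omega
    have e4 : (3 * e + c) % 3 = c := by omega
    rw [e1, e2]
    simp only [ν, e3, e4]
    rw [decide_eq_false he]
    rfl
  have base : ∀ j < D.nE + 9 * D.nF + 3, clT ν (D.db.get j) := by
    intro j hj
    by_cases h1 : j < D.nE
    · exact ⟨_, hc.db1 j h1 (ce j) (cc_lt _ _), lpos j _ (cc_lt _ _) rfl⟩
    by_cases h2 : j < D.nE + 9 * D.nF
    · obtain ⟨f, k, c, hf, hk, hc3, hjj⟩ : ∃ f k c, f < D.nF ∧ k < 3 ∧ c < 3 ∧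
          j = D.nE + 9 * f + 3 * k + c :=
        ⟨(j - D.nE) / 9, (j - D.nE) % 9 / 3, (j - D.nE) % 3, by omega, by omega, by omega,
          by omega⟩
      obtain ⟨t1, t2⟩ := hc.db2 f hf k hk c hc3
      rw [hjj]
      by_cases hcol1 : ce (D.fv f (3 + k)) = c
      · refine ⟨_, t2, lneg _ _ hc3 ?_⟩
        intro h5
        exact ce_ne f hf k hk (hcol1.trans h5.symm)
      · exact ⟨_, t1, lneg _ _ hc3 hcol1⟩
    · obtain ⟨k, hk, hjj⟩ : ∃ k < 3, j = D.nE + 9 * D.nF + k :=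
        ⟨j - (D.nE + 9 * D.nF), by omega, by omega⟩
      rw [hjj]
      refine ⟨_, hc.db3 k hk, lpos _ _ hk ?_⟩
      rw [ce_face 0 hc.pos k hk]
      rcases (show k = 0 ∨ k = 1 ∨ k = 2 by omega) with rfl | rfl | rfl
      · rw [← ha0, show D.fv 0 ((0 + 1) % 3) = b0 from hb0.symm, cc_val, s1]; rfl
      · rw [← hb0, show D.fv 0 ((1 + 1) % 3) = c0 from hc0.symm, cc_val, s2]; rfl
      · rw [← hc0, show D.fv 0 ((2 + 1) % 3) = a0 from ha0.symm, cc_val, s3]; rfl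
  have := chkL_sound ν D.db D.hs _ base hc.run (D.nE + 9 * D.nF + 3 + D.hs.length - 1)
    (by have := hc.len; omega)
  rw [hc.last] at this
  exact clT_zero ν this

end Dat

end Pool.Agent.TH530.Gr
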