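import Mathlib

/-!
Simple triangulations of closed oriented surfaces, given by their oriented faces, and the
edge colourings of their duals.
-/

namespace Pool.Agent.TH530.Gr

open Relation

/-- A simple triangulation of a closed connected oriented surface with vertex set `V`:
`face a b c` says that `a`, `b`, `c` are the corners of a face, in this cyclic order.
Every ordered pair of adjacent vertices lies on exactly one face on its left (`unique`, `closed`),
so there are no loops and no parallel edges and every edge lies on exactly two faces; the link of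
every vertex is a single cycle (`link`); the graph is connected. -/
structure SimpTri (V : Type) where
  face : V → V → V → Prop
  rotate : ∀ {a b c : V}, face a b c → face b c a
  ne : ∀ {a b c : V}, face a b c → a ≠ b
  unique : ∀ {a b c d : V}, face a b c → face a b d → c = d
  closed : ∀ {a b c : V}, face a b c → ∃ d, face b a d
  link : ∀ {v a b c d : V}, face v a b → face v c d → ReflTransGen (face v) a c
  connected : ∀ u v : V, ReflTransGen (fun x y => ∃ z, face x y z) u v
  nonempty : ∃ a b c : V, face a b c

variable {V : Type}

/-- the set of ordered pairs of adjacent vertices; there are two for every edge -/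
def SimpTri.arcs (T : SimpTri V) : Set (V × V) := {e | ∃ c, T.face e.1 e.2 c}

/-- the set of ordered triples going round a face; there are three for every face -/
def SimpTri.corners (T : SimpTri V) : Set (V × V × V) := {t | T.face t.1 t.2.1 t.2.2}

/-- `|V| - |E| + |F| = 2 - 2g` -/
def SimpTri.HasGenus (T : SimpTri V) (g : ℕ) : Prop :=
  (Nat.card V : ℚ) - (T.arcs.ncard : ℚ) / 2 + (T.corners.ncard : ℚ) / 3 = 2 - 2 * (g : ℚ)

/-- The dual graph has a proper edge colouring with three colours: a colour for every edge of the
triangulation (the edges of the dual cross them) such that the three edges of every face (the edges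
of the dual at one vertex) get three different colours. -/
def SimpTri.DualThreeEdgeColourable (T : SimpTri V) : Prop :=
  ∃ col : V → V → Fin 3, (∀ a b, col a b = col b a) ∧
    ∀ a b c, T.face a b c → col a b ≠ col b c ∧ col b c ≠ col c a ∧ col c a ≠ col a b

theorem SimpTri.corners_ncard (T : SimpTri V) : T.corners.ncard = T.arcs.ncard := by
  have h : T.arcs = (fun t : V × V × V => (t.1, t.2.1)) '' T.corners := by
    ext ⟨a, b⟩
    constructor
    · rintro ⟨c, hc⟩
      exact ⟨(a, b, c), hc, rfl⟩
    · rintro ⟨⟨a', b', c'⟩, hc, he⟩
      simp only [Prod.mk.injEq] at he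
      obtain ⟨rfl, rfl⟩ := he
      exact ⟨c', hc⟩
  rw [h, Set.InjOn.ncard_image]
  rintro ⟨a, b, c⟩ h1 ⟨a', b', c'⟩ h2 he
  simp only [Prod.mk.injEq] at he
  obtain ⟨rfl, rfl⟩ := he
  have : c = c' := T.unique h1 h2
  rw [this]

theorem SimpTri.hasGenus_iff (T : SimpTri V) (g : ℕ) :
    T.HasGenus g ↔ 6 * (Nat.card V : ℤ) - T.arcs.ncard = 12 - 12 * (g : ℤ) := by
  unfold SimpTri.HasGenus
  rw [T.corners_ncard]
  constructor
  · intro h
    have : (6 * (Nat.card V : ℚ) - T.arcs.ncard) = 12 - 12 * (g : ℚ) := by linarith
    exact_mod_cast this
  · intro h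
    have : (6 * (Nat.card V : ℚ) - T.arcs.ncard) = 12 - 12 * (g : ℚ) := by exact_mod_cast h
    linarith

end Pool.Agent.TH530.Gr
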